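import Mathlib

/-!
# Complements of multicone graphs need not be determined by their adjacency spectrum

For every `w ≥ 2` the complement of the join of `K_w` and the hexagon `C_6` has a non-isomorphic
graph with the same adjacency spectrum.
-/

set_option autoImplicit false

namespace Pool.Agent.Results.MP_cd2ba9_co.ConeOverHexagonNotDS

/-- the disjoint union `m C_n` of `m` cycles with `n` vertices -/
def cycles (m n : ℕ) : SimpleGraph (Fin m × Fin n) where
  Adj x y := x.1 = y.1 ∧ (SimpleGraph.cycleGraph n).Adj x.2 y.2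
  symm := ⟨fun _ _ h => ⟨h.1.symm, h.2.symm⟩⟩
  loopless := ⟨fun x h => (SimpleGraph.cycleGraph n).loopless.irrefl x.2 h.2⟩

/-- the join of two graphs on disjoint vertex sets -/
def join {V W : Type} (G : SimpleGraph V) (H : SimpleGraph W) : SimpleGraph (V ⊕ W) where
  Adj
    | .inl x, .inl y => G.Adj x y
    | .inl _, .inr _ => True
    | .inr _, .inl _ => True
    | .inr x, .inr y => H.Adj x y
  symm := ⟨by rintro (x | x) (y | y) h <;> first | exact trivial | exact h.symm⟩
  loopless := ⟨by
    rintro (x | x) h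
    · exact G.loopless.irrefl x h
    · exact H.loopless.irrefl x h⟩

/-- the multicone graph: the join of the complete graph `K_w` and `m C_n` -/
def multicone (w m n : ℕ) : SimpleGraph (Fin w ⊕ (Fin m × Fin n)) :=
  join (⊤ : SimpleGraph (Fin w)) (cycles m n)

open scoped Classical in
/-- the adjacency spectrum: the multiset of the eigenvalues of the real adjacency matrix -/
noncomputable def adjSpectrum {V : Type} [Fintype V] (G : SimpleGraph V) : Multiset ℝ :=
  (G.adjMatrix ℝ).charpoly.roots

/-- `G` is determined by its adjacency spectrum -/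
def IsDS {V : Type} [Fintype V] (G : SimpleGraph V) : Prop :=
  ∀ (W : Type) [Fintype W] (H : SimpleGraph W), adjSpectrum H = adjSpectrum G → Nonempty (H ≃g G)

/-! ### The prism and its mate -/

/-- adjacency of the complement of the hexagon, as a Boolean function -/
def adjA (i j : Fin 6) : Bool :=
  decide (i ≠ j) && !(decide (j = i + 1) || decide (i = j + 1))

/-- integer adjacency matrix of the complement of the hexagon -/
def matA : Matrix (Fin 1 × Fin 6) (Fin 1 × Fin 6) ℤ :=
  Matrix.of fun x y => if adjA x.2 y.2 then 1 else 0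

/-- two adjacent hubs `0, 1` with common neighbours `2, 3`, and two pendant vertices at each hub -/
def adjB (i j : Fin 8) : Bool :=
  [(0, 1), (0, 2), (0, 3), (0, 4), (0, 5), (1, 2), (1, 3), (1, 6), (1, 7)].any
    fun p => (decide (p.1 = i.val) && decide (p.2 = j.val)) ||
      (decide (p.1 = j.val) && decide (p.2 = i.val))

/-- integer adjacency matrix of the mate -/
def matB : Matrix (Fin 8) (Fin 8) ℤ := Matrix.of fun x y => if adjB x y then 1 else 0

/-- first factor -/
def matM : Matrix (Fin 8) (Fin 1 × Fin 6) ℤ := Matrix.of fun i j =>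
  (![![6, 6, 6, 0, 0, 0], ![0, 6, 6, 6, 0, 0], ![2, -1, -1, 2, 5, 5], ![2, -1, -1, 2, 5, 5],
    ![1, -2, 1, 1, 4, 1], ![1, -2, 1, 1, 4, 1], ![1, 1, -2, 1, 1, 4],
    ![1, 1, -2, 1, 1, 4]] : Fin 8 → Fin 6 → ℤ) i j.2

/-- second factor -/
def matN : Matrix (Fin 1 × Fin 6) (Fin 8) ℤ := Matrix.of fun i j =>
  (![![-1, 4, 1, 1, 3, 3, -2, -2], ![-2, 3, 2, 2, 1, 1, 1, 1], ![3, -2, 2, 2, 1, 1, 1, 1],
    ![4, -1, 1, 1, -2, -2, 3, 3], ![5, 0, 0, 0, 0, 0, 0, 0],
    ![0, 5, 0, 0, 0, 0, 0, 0]] : Fin 6 → Fin 8 → ℤ) i.2 j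

theorem matM_mul_matN : ∀ i j, (matM * matN) i j = 30 * matB i j := by decide +kernel

theorem matN_mul_matM : ∀ i j, (matN * matM) i j = 30 * matA i j := by decide +kernel

theorem matA_symm_two : ∀ i j : Fin 6, adjA i j = true → ∃ k, k ≠ j ∧ adjA i k = true := by
  decide +kernel

theorem adjA_iff : ∀ i j : Fin 6,
    adjA i j = true ↔ i ≠ j ∧ ¬ (j = i + 1 ∨ i = j + 1) := by
  decide +kernel

theorem adjB_symm : ∀ i j : Fin 8, adjB i j = true → adjB j i = true := by decide +kernel

theorem adjB_irrefl : ∀ i : Fin 8, adjB i i = false := by decide +kernel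

theorem adjB_pendant : ∀ i : Fin 8, adjB 4 i = true → i = 0 := by decide +kernel

theorem adjB_four : adjB 4 0 = true := by decide +kernel

/-- the real version of `matA` -/
def realA : Matrix (Fin 1 × Fin 6) (Fin 1 × Fin 6) ℝ := Matrix.of fun i j => (matA i j : ℝ)

/-- the real version of `matB` -/
def realB : Matrix (Fin 8) (Fin 8) ℝ := Matrix.of fun i j => (matB i j : ℝ)

/-- the first factor over the reals, rescaled -/
noncomputable def realM : Matrix (Fin 8) (Fin 1 × Fin 6) ℝ :=
  Matrix.of fun i j => (matM i j : ℝ) / 30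

/-- the second factor over the reals -/
def realN : Matrix (Fin 1 × Fin 6) (Fin 8) ℝ := Matrix.of fun i j => (matN i j : ℝ)

theorem realM_mul_realN : realM * realN = realB := by
  ext i j
  have h := matM_mul_matN i j
  rw [Matrix.mul_apply] at h ⊢
  have h2 : (∑ k, (matM i k : ℝ) * (matN k j : ℝ)) = 30 * (matB i j : ℝ) := by
    exact_mod_cast h
  simp only [realM, realN, realB, Matrix.of_apply]
  rw [show (∑ k, (matM i k : ℝ) / 30 * (matN k j : ℝ)) =
    (∑ k, (matM i k : ℝ) * (matN k j : ℝ)) / 30 by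
      rw [Finset.sum_div]; exact Finset.sum_congr rfl (fun k _ => by ring), h2]
  ring

theorem realN_mul_realM : realN * realM = realA := by
  ext i j
  have h := matN_mul_matM i j
  rw [Matrix.mul_apply] at h ⊢
  have h2 : (∑ k, (matN i k : ℝ) * (matM k j : ℝ)) = 30 * (matA i j : ℝ) := by
    exact_mod_cast h
  simp only [realM, realN, realA, Matrix.of_apply]
  rw [show (∑ k, (matN i k : ℝ) * ((matM k j : ℝ) / 30)) =
    (∑ k, (matN i k : ℝ) * (matM k j : ℝ)) / 30 by
      rw [Finset.sum_div]; exact Finset.sum_congr rfl (fun k _ => by ring), h2]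
  ring

open Polynomial in
theorem charpoly_factor {K : Type} [CommRing K] [Nontrivial K] {m n : Type} [Fintype m] [Fintype n]
    [DecidableEq m] [DecidableEq n] (M : Matrix m n K) (N : Matrix n m K) (A : Matrix n n K)
    (B : Matrix m m K) (c : ℕ) (hc : Fintype.card m = Fintype.card n + c)
    (hB : M * N = B) (hA : N * M = A) : B.charpoly = X ^ c * A.charpoly := by
  have h := Matrix.charpoly_mul_comm_of_le M N (by omega)
  rw [hc, Nat.add_sub_cancel_left, hA, hB] at h
  exact h

open Polynomial in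
theorem charpoly_rel : realB.charpoly = X ^ 2 * realA.charpoly :=
  charpoly_factor realM realN realA realB 2 (by simp) realM_mul_realN realN_mul_realM

/-- the mate with `w` further isolated vertices -/
def mate (w : ℕ) : SimpleGraph (Fin w ⊕ Fin 8) where
  Adj
    | .inl _, .inl _ => False
    | .inl _, .inr _ => False
    | .inr _, .inl _ => False
    | .inr x, .inr y => adjB x y = true
  symm := ⟨by rintro (x | x) (y | y) h <;> first | exact h.elim | exact adjB_symm _ _ h⟩
  loopless := ⟨by
    rintro (x | x) h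
    · exact h
    · have := adjB_irrefl x
      simp_all⟩

theorem adjMatrix_mate (w : ℕ) [DecidableRel (mate w).Adj] : (mate w).adjMatrix ℝ =
    Matrix.fromBlocks 0 0 0 realB := by
  ext (i | i) (j | j)
  · rw [SimpleGraph.adjMatrix_apply, if_neg (fun h : (mate w).Adj (.inl i) (.inl j) => h)]; rfl
  · rw [SimpleGraph.adjMatrix_apply, if_neg (fun h : (mate w).Adj (.inl i) (.inr j) => h)]; rfl
  · rw [SimpleGraph.adjMatrix_apply, if_neg (fun h : (mate w).Adj (.inr i) (.inl j) => h)]; rfl
  · rw [SimpleGraph.adjMatrix_apply, Matrix.fromBlocks_apply₂₂]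
    by_cases h : adjB i j = true
    · rw [if_pos (show (mate w).Adj (.inr i) (.inr j) from h)]
      simp [realB, matB, h]
    · rw [if_neg (show ¬ (mate w).Adj (.inr i) (.inr j) from h)]
      simp [realB, matB, h]

theorem compl_adj_inr (w : ℕ) (x y : Fin 1 × Fin 6) :
    ((multicone w 1 6)ᶜ).Adj (.inr x) (.inr y) ↔ adjA x.2 y.2 = true := by
  rw [SimpleGraph.compl_adj, adjA_iff]
  have h1 : x.1 = y.1 := Subsingleton.elim _ _
  have h2 : (multicone w 1 6).Adj (.inr x) (.inr y) ↔ (y.2 = x.2 + 1 ∨ x.2 = y.2 + 1) := by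
    change (x.1 = y.1 ∧ (SimpleGraph.cycleGraph 6).Adj x.2 y.2) ↔ _
    rw [SimpleGraph.cycleGraph_adj]
    constructor
    · rintro ⟨-, h | h⟩
      · right; rw [← h]; exact (add_sub_cancel _ _).symm
      · left; rw [← h]; exact (add_sub_cancel _ _).symm
    · rintro (h | h)
      · exact ⟨h1, Or.inr (by rw [h]; exact add_sub_cancel_left _ _)⟩
      · exact ⟨h1, Or.inl (by rw [h]; exact add_sub_cancel_left _ _)⟩
  rw [h2]
  constructor
  · rintro ⟨a, b⟩
    refine ⟨fun h => a ?_, b⟩
    exact congrArg Sum.inr (Prod.ext h1 h)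
  · rintro ⟨a, b⟩
    refine ⟨fun h => a ?_, b⟩
    exact congrArg Prod.snd (Sum.inr.inj h)

theorem adjMatrix_compl (w : ℕ) [DecidableRel ((multicone w 1 6)ᶜ).Adj] :
    ((multicone w 1 6)ᶜ).adjMatrix ℝ =
    Matrix.fromBlocks 0 0 0 realA := by
  ext (i | i) (j | j)
  · have : ¬ ((multicone w 1 6)ᶜ).Adj (.inl i) (.inl j) := by
      rw [SimpleGraph.compl_adj]
      rintro ⟨h1, h2⟩
      exact h2 (show i ≠ j from fun h => h1 (by rw [h]))
    rw [SimpleGraph.adjMatrix_apply, if_neg this]; rfl
  · have : ¬ ((multicone w 1 6)ᶜ).Adj (.inl i) (.inr j) := by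
      rw [SimpleGraph.compl_adj]
      rintro ⟨h1, h2⟩
      exact h2 trivial
    rw [SimpleGraph.adjMatrix_apply, if_neg this]; rfl
  · have : ¬ ((multicone w 1 6)ᶜ).Adj (.inr i) (.inl j) := by
      rw [SimpleGraph.compl_adj]
      rintro ⟨h1, h2⟩
      exact h2 trivial
    rw [SimpleGraph.adjMatrix_apply, if_neg this]; rfl
  · rw [SimpleGraph.adjMatrix_apply, Matrix.fromBlocks_apply₂₂]
    by_cases h : adjA i.2 j.2 = true
    · rw [if_pos ((compl_adj_inr w i j).mpr h)]
      simp [realA, matA, h]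
    · rw [if_neg (fun h' => h ((compl_adj_inr w i j).mp h'))]
      simp [realA, matA, h]

open Polynomial in
theorem charpoly_block {ι : Type} [Fintype ι] [DecidableEq ι] (w : ℕ) (C : Matrix ι ι ℝ)
    [dec : DecidableEq (Fin w ⊕ ι)] :
    (Matrix.fromBlocks (0 : Matrix (Fin w) (Fin w) ℝ) 0 0 C).charpoly = X ^ w * C.charpoly := by
  have h := Matrix.charpoly_fromBlocks_zero₂₁ (0 : Matrix (Fin w) (Fin w) ℝ)
    (0 : Matrix (Fin w) ι ℝ) C
  rw [Matrix.charpoly_zero, Fintype.card_fin] at h
  obtain rfl : dec = instDecidableEqSum := Subsingleton.elim _ _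
  exact h

theorem spectrum_eq (w : ℕ) : adjSpectrum (mate w) = adjSpectrum (multicone (w + 2) 1 6)ᶜ := by
  unfold adjSpectrum
  rw [adjMatrix_mate, adjMatrix_compl, charpoly_block, charpoly_block, charpoly_rel, pow_add,
    mul_assoc]

/-- **Main result.** For every `w ≥ 2` the complement of the join of `K_w` and `C_6` is not
determined by its adjacency spectrum. -/
theorem result : ∀ w : ℕ, 2 ≤ w → ¬ IsDS (multicone w 1 6)ᶜ := by
  intro w hw h
  obtain ⟨v, rfl⟩ : ∃ v, w = v + 2 := ⟨w - 2, by omega⟩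
  obtain ⟨e⟩ := h (Fin v ⊕ Fin 8) (mate v) (spectrum_eq v)
  have h1 : (mate v).Adj (.inr 4) (.inr 0) := adjB_four
  have h2 := e.map_adj_iff.mpr h1
  rcases hx : e (.inr 4) with x | x
  · rw [hx] at h2
    rcases hy : e (.inr 0) with y | y
    · rw [hy, SimpleGraph.compl_adj] at h2
      exact h2.2 (show x ≠ y from fun h => h2.1 (by rw [h]))
    · rw [hy, SimpleGraph.compl_adj] at h2
      exact h2.2 trivial
  · rw [hx] at h2
    rcases hy : e (.inr 0) with y | y
    · rw [hy, SimpleGraph.compl_adj] at h2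
      exact h2.2 trivial
    · rw [hy, compl_adj_inr] at h2
      obtain ⟨k, hk, hk2⟩ := matA_symm_two _ _ h2
      have h3 : ((multicone (v + 2) 1 6)ᶜ).Adj (e (.inr 4)) (.inr (0, k)) := by
        rw [hx, compl_adj_inr]; exact hk2
      have h4 : (mate v).Adj (.inr 4) (e.symm (.inr (0, k))) := by
        rw [← e.map_adj_iff, RelIso.apply_symm_apply]; exact h3
      rcases hz : e.symm (.inr (0, k)) with z | z
      · rw [hz] at h4; exact h4
      · rw [hz] at h4
        have h5 : z = 0 := adjB_pendant z h4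
        rw [h5] at hz
        have h6 : e (.inr 0) = .inr (0, k) := by rw [← hz, RelIso.apply_symm_apply]
        rw [hy] at h6
        have h7 : y = (0, k) := Sum.inr.inj h6
        exact hk (by rw [h7])

end Pool.Agent.Results.MP_cd2ba9_co.ConeOverHexagonNotDS
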